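import Pool.Agent.R617.TC.Defs

/-!
# Types in homogeneous structures with a finite relational language
-/

set_option autoImplicit false

namespace Pool.Agent.R617.TC

open FirstOrder FirstOrder.Language

variable {L : FirstOrder.Language.{0, 0}} {M : Type} [L.Structure M]

/-- Two families of elements satisfy the same atomic formulas. -/
def SameAtoms (L : FirstOrder.Language.{0, 0}) {M : Type} [L.Structure M] {ι : Type}
    (a b : ι → M) : Prop :=
  (∀ i j, a i = a j ↔ b i = b j) ∧
    ∀ (k : ℕ) (R : L.Relations k) (f : Fin k → ι),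
      Structure.RelMap R (fun i => a (f i)) ↔ Structure.RelMap R (fun i => b (f i))

theorem exists_equiv [L.IsRelational] (hM : L.IsUltrahomogeneous M) {ι : Type} [Finite ι]
    {a b : ι → M} (h : SameAtoms L a b) : ∃ g : M ≃[L] M, ∀ i, g (a i) = b i := by
  classical
  let s : L.Substructure M := Substructure.closure L (Set.range a)
  have hs : s.FG := Substructure.fg_closure (Set.finite_range a)
  have hmem : ∀ x : s, ∃ i, a i = x.1 := by
    rintro ⟨x, hx⟩
    exact (Substructure.mem_closure_iff_of_isRelational L (Set.range a) x).1 hx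
  choose ix hix using hmem
  let f : s ↪[L] M := {
    toFun := fun x => b (ix x)
    inj' := by
      intro x y hxy
      apply Subtype.ext
      rw [← hix x, ← hix y]
      exact (h.1 _ _).2 hxy
    map_fun' := fun f => isEmptyElim f
    map_rel' := by
      intro k R x
      have h1 := h.2 k R (fun i => ix (x i))
      simp only [hix] at h1
      exact h1.symm }
  obtain ⟨g, hg⟩ := hM s hs f
  refine ⟨g, fun i => ?_⟩
  have hi : a i ∈ s := Substructure.subset_closure ⟨i, rfl⟩
  have h1 := DFunLike.congr_fun hg ⟨a i, hi⟩
  have h2 : f ⟨a i, hi⟩ = b (ix ⟨a i, hi⟩) := rfl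
  have h3 : b (ix ⟨a i, hi⟩) = b i := (h.1 _ _).1 (hix _)
  rw [h2, h3] at h1
  exact h1.symm

theorem SameAtoms.sameType [L.IsRelational] (hM : L.IsUltrahomogeneous M) {n m : ℕ}
    {c : Fin n → M} {a b : Fin m → M} (h : SameAtoms L (Sum.elim c a) (Sum.elim c b)) :
    SameType L c a b := by
  obtain ⟨g, hg⟩ := exists_equiv hM h
  intro φ
  have h1 : (Sum.elim c b) = g ∘ (Sum.elim c a) := by
    funext i
    exact (hg i).symm
  rw [h1]
  exact (StrongHomClass.realize_formula g φ).symm

theorem SameType.sameAtoms {n m : ℕ} {c : Fin n → M} {a b : Fin m → M} (h : SameType L c a b) :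
    SameAtoms L (Sum.elim c a) (Sum.elim c b) := by
  constructor
  · intro i j
    have := h ((Term.var i).equal (Term.var j))
    simpa using this
  · intro k R f
    have := h (R.formula fun i => Term.var (f i))
    simpa using this

theorem sameType_iff [L.IsRelational] (hM : L.IsUltrahomogeneous M) {n m : ℕ} {c : Fin n → M}
    {a b : Fin m → M} : SameType L c a b ↔ SameAtoms L (Sum.elim c a) (Sum.elim c b) :=
  ⟨SameType.sameAtoms, SameAtoms.sameType hM⟩

/-- There are finitely many types of `r`-tuples. -/
theorem finite_types [L.IsRelational] [Finite (Σ n, L.Relations n)] (hM : L.IsUltrahomogeneous M)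
    {n : ℕ} (c : Fin n → M) (r : ℕ) : Finite (Types L c r) := by
  let at1 : (Fin r → M) → ((Fin n ⊕ Fin r) → (Fin n ⊕ Fin r) → Prop) ×
      ((R : Σ k, L.Relations k) → (Fin R.1 → Fin n ⊕ Fin r) → Prop) := fun a =>
    (fun i j => Sum.elim c a i = Sum.elim c a j,
      fun R f => Structure.RelMap R.2 (fun i => Sum.elim c a (f i)))
  have : Function.Injective (fun q : Types L c r => at1 q.out) := by
    intro p q hpq
    have h1 : SameAtoms L (Sum.elim c p.out) (Sum.elim c q.out) := by
      constructor
      · intro i j
        exact iff_of_eq (congrFun (congrFun (congrArg Prod.fst hpq) i) j)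
      · intro k R f
        exact iff_of_eq (congrFun (congrFun (congrArg Prod.snd hpq) ⟨k, R⟩) f)
    have h2 := SameAtoms.sameType hM h1
    rw [← Quotient.out_eq p, ← Quotient.out_eq q]
    exact Quotient.sound h2
  exact Finite.of_injective _ this

end Pool.Agent.R617.TC
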