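import Pool.Agent.R617.TC.Cx

/-!
# The constraint satisfaction problem of `(ℚ; <)` is in `P`
-/

set_option autoImplicit false

namespace Pool.Agent.R617.TC

open Pool.Agent.NPC

/-- The relation `<` on `ℚ`. -/
def ltRel : Rel ℚ := ⟨2, {t | t 0 < t 1}⟩

/-- Delete the arcs whose head has no outgoing arc. -/
def stp (E : List (ℕ × ℕ)) : List (ℕ × ℕ) :=
  E.filter fun p => E.any fun q => decide (q.1 = p.2)

theorem mem_stp {E : List (ℕ × ℕ)} {p : ℕ × ℕ} : p ∈ stp E ↔ p ∈ E ∧ ∃ q ∈ E, q.1 = p.2 := by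
  unfold stp
  rw [List.mem_filter, List.any_eq_true]
  simp

/-- `E` has a rational potential. -/
def Pot (E : List (ℕ × ℕ)) : Prop := ∃ h : ℕ → ℚ, ∀ p ∈ E, h p.1 < h p.2

theorem Pot.stp {E : List (ℕ × ℕ)} (hE : Pot E) : Pot (stp E) := by
  obtain ⟨h, hh⟩ := hE
  exact ⟨h, fun p hp => hh p (mem_stp.1 hp).1⟩

theorem exists_max {E : List (ℕ × ℕ)} (h : ℕ → ℚ) (hE : E ≠ []) :
    ∃ p ∈ E, ∀ q ∈ E, h q.2 ≤ h p.2 := by
  induction E with
  | nil => exact absurd rfl hE
  | cons a E ih =>
    by_cases hE' : E = []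
    · subst hE'
      exact ⟨a, by simp, fun q hq => by simp at hq; rw [hq]⟩
    · obtain ⟨p, hp, hmax⟩ := ih hE'
      rcases le_total (h a.2) (h p.2) with hle | hle
      · refine ⟨p, List.mem_cons_of_mem _ hp, fun q hq => ?_⟩
        rcases List.mem_cons.1 hq with rfl | hq
        · exact hle
        · exact hmax q hq
      · refine ⟨a, by simp, fun q hq => ?_⟩
        rcases List.mem_cons.1 hq with rfl | hq
        · exact le_rfl
        · exact (hmax q hq).trans hle

theorem stp_lt {E : List (ℕ × ℕ)} (hE : Pot E) (hne : E ≠ []) : (stp E).length < E.length := by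
  obtain ⟨h, hh⟩ := hE
  obtain ⟨p, hp, hmax⟩ := exists_max h hne
  unfold stp
  rw [List.length_filter_lt_length_iff_exists]
  refine ⟨p, hp, ?_⟩
  rw [List.any_eq_true]
  rintro ⟨q, hq, hqp⟩
  rw [decide_eq_true_eq] at hqp
  have h1 := hh q hq
  rw [hqp] at h1
  exact absurd (hmax q hq) (not_le.2 h1)

theorem iter_nil : ∀ (n : ℕ) {E : List (ℕ × ℕ)}, Pot E → E.length ≤ n →
    stp^[n] E = []
  | 0, E, _, hn => List.eq_nil_of_length_eq_zero (by simpa using hn)
  | n + 1, E, hE, hn => by
    rw [Function.iterate_succ_apply]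
    refine iter_nil n hE.stp ?_
    · by_cases hne : E = []
      · subst hne
        simp [stp]
      · have := stp_lt hE hne
        omega

theorem exists_ub (g : ℕ → ℚ) (E : List (ℕ × ℕ)) : ∃ M : ℚ, ∀ p ∈ E, g p.1 < M := by
  induction E with
  | nil => exact ⟨0, by simp⟩
  | cons a E ih =>
    obtain ⟨M, hM⟩ := ih
    refine ⟨max M (g a.1 + 1), fun p hp => ?_⟩
    rcases List.mem_cons.1 hp with rfl | hp
    · exact lt_of_lt_of_le (lt_add_one _) (le_max_right _ _)
    · exact lt_of_lt_of_le (hM p hp) (le_max_left _ _)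

theorem pot_of_stp {E : List (ℕ × ℕ)} (hE : Pot (stp E)) : Pot E := by
  classical
  obtain ⟨g, hg⟩ := hE
  obtain ⟨M, hM⟩ := exists_ub g E
  refine ⟨fun x => if ∃ q ∈ E, q.1 = x then g x else M, fun p hp => ?_⟩
  show (if ∃ q ∈ E, q.1 = p.1 then g p.1 else M) < (if ∃ q ∈ E, q.1 = p.2 then g p.2 else M)
  rw [if_pos ⟨p, hp, rfl⟩]
  by_cases h : ∃ q ∈ E, q.1 = p.2
  · rw [if_pos h]
    exact hg p (mem_stp.2 ⟨hp, h⟩)
  · rw [if_neg h]
    exact hM p hp

theorem pot_iff (E : List (ℕ × ℕ)) : Pot E ↔ stp^[E.length] E = [] := by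
  constructor
  · exact fun h => iter_nil _ h le_rfl
  · have key : ∀ (n : ℕ) (E : List (ℕ × ℕ)), stp^[n] E = [] → Pot E := by
      intro n
      induction n with
      | zero => intro E h; exact ⟨fun _ => 0, by rw [show E = [] from h]; simp⟩
      | succ n ih =>
        intro E h
        rw [Function.iterate_succ_apply] at h
        exact pot_of_stp (ih _ h)
    exact key _ E

theorem sz_filter_le {β : Type} [TEnc β] (p : β → Bool) (l : List β) : sz (l.filter p) ≤ sz l := by
  induction l with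
  | nil => simp
  | cons a l ih =>
    have h1 : sz (a :: l) = sz a + sz l + 1 := by simp
    by_cases h : p a
    · rw [List.filter_cons_of_pos h]
      have h2 : sz (a :: l.filter p) = sz a + sz (l.filter p) + 1 := by simp
      omega
    · rw [List.filter_cons_of_neg h]
      omega

theorem stp_poly : Poly stp := by
  unfold stp
  refine Poly.filter (p := fun (E : List (ℕ × ℕ)) p => E.any fun q => decide (q.1 = p.2)) Poly.id ?_
  exact Poly.any (p := fun (x : List (ℕ × ℕ) × (ℕ × ℕ)) q => decide (q.1 = x.2.2))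
    (Poly.fst Poly.id) (Poly.decide_eq (Poly.fst (Poly.snd Poly.id))
      (Poly.snd (Poly.snd (Poly.fst Poly.id))))

theorem iter_poly : Poly (fun E : List (ℕ × ℕ) => stp^[E.length] E) := by
  refine Poly.iterLen (F := fun _ E => stp E) Poly.id Poly.id (stp_poly.comp (Poly.snd Poly.id))
    Polynomial.X ?_
  intro E k _
  rw [Polynomial.eval_X]
  have key : ∀ (k : ℕ) (E : List (ℕ × ℕ)), sz (stp^[k] E) ≤ sz E := by
    intro k
    induction k with
    | zero => intro E; exact le_rfl
    | succ k ih =>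
      intro E
      rw [Function.iterate_succ_apply]
      exact (ih _).trans (sz_filter_le _ _)
  exact key k E

/-- The arc of a constraint. -/
def arc (C : ℕ × List ℕ) : ℕ × ℕ := (C.2.getD 0 0, C.2.getD 1 0)

/-- The decision procedure. -/
def dec (t : ℕ) (I : List (ℕ × List ℕ)) : Bool :=
  (I.all fun C => decide (C.1 < t) && decide (C.2.length = 2)) &&
    (stp^[(I.map arc).length] (I.map arc)).isEmpty

theorem dec_poly (t : ℕ) : Poly (dec t) := by
  unfold dec
  refine Poly.and ?_ ?_
  · exact Poly.all (p := fun (_ : List (ℕ × List ℕ)) C => decide (C.1 < t) && decide (C.2.length = 2))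
      Poly.id (Poly.and (Poly.decide_lt (Poly.fst (Poly.snd Poly.id)) (NPC.Poly.const t))
        (Poly.decide_eq (Poly.length (Poly.snd (Poly.snd Poly.id))) (NPC.Poly.const 2)))
  · refine Poly.isEmpty (iter_poly.comp (f := fun I : List (ℕ × List ℕ) => I.map arc) ?_)
    refine NPC.Poly.map (F := fun (_ : List (ℕ × List ℕ)) C => arc C) Poly.id ?_
    exact Poly.pair (Poly.getD (Poly.snd (Poly.snd Poly.id)) (NPC.Poly.const 0) (NPC.Poly.const 0))
      (Poly.getD (Poly.snd (Poly.snd Poly.id)) (NPC.Poly.const 1) (NPC.Poly.const 0))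

theorem dec_correct {l : List (Rel ℚ)} (hl : ∀ R ∈ l, R ∈ ({ltRel} : Set (Rel ℚ)))
    (I : List (ℕ × List ℕ)) : CSP l I ↔ dec l.length I = true := by
  unfold dec
  rw [Bool.and_eq_true, List.all_eq_true, List.isEmpty_iff, ← pot_iff]
  constructor
  · rintro ⟨h, hh⟩
    constructor
    · intro C hC
      obtain ⟨R, v, hR, hv, -⟩ := hh C hC
      rw [Bool.and_eq_true, decide_eq_true_eq, decide_eq_true_eq]
      constructor
      · exact (List.getElem?_eq_some_iff.1 hR).1
      · have hR' : R = ltRel := hl R (List.mem_of_getElem? hR)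
        subst hR'
        rw [hv, List.length_ofFn]
        rfl
    · refine ⟨h, fun p hp => ?_⟩
      rw [List.mem_map] at hp
      obtain ⟨C, hC, rfl⟩ := hp
      obtain ⟨R, v, hR, hv, hm⟩ := hh C hC
      have hR' : R = ltRel := hl R (List.mem_of_getElem? hR)
      subst hR'
      change Fin 2 → ℕ at v
      have hm' : h (v 0) < h (v 1) := hm
      have hv' : C.2 = [v 0, v 1] := by
        rw [hv]
        show List.ofFn v = _
        simp
      unfold arc
      rw [hv']
      exact hm'
  · rintro ⟨hwf, h, hh⟩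
    refine ⟨h, fun C hC => ?_⟩
    have h1 := hwf C hC
    rw [Bool.and_eq_true, decide_eq_true_eq, decide_eq_true_eq] at h1
    obtain ⟨h2, h3⟩ := h1
    have h4 : l[C.1] = ltRel := hl _ (List.getElem_mem h2)
    refine ⟨ltRel, ![C.2.getD 0 0, C.2.getD 1 0], ?_, ?_, ?_⟩
    · rw [List.getElem?_eq_getElem h2, h4]
    · obtain ⟨a, b, hab⟩ := List.length_eq_two.1 h3
      rw [hab]
      exact ofFn2 a b
    · exact hh _ (List.mem_map.2 ⟨C, hC, rfl⟩)

theorem lt_tractable : Tractable ({ltRel} : Set (Rel ℚ)) :=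
  fun l hl => inPP_of (dec_poly l.length) (dec_correct hl)

end Pool.Agent.R617.TC
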