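import Pool.Agent.R617.TC.Dict
import Pool.Agent.R617.TC.Acyc

/-!
# Type clones over `(ℚ; ≤)`
-/

set_option autoImplicit false

namespace Pool.Agent.R617.TC

open FirstOrder FirstOrder.Language Pool.Agent.NPC

section General

variable {L : FirstOrder.Language.{0, 0}} {M : Type} [L.Structure M] {Γ : Set (Rel M)} {n r : ℕ}
  {c : Fin n → M}

theorem comp_mem {k N : ℕ} {g : (Fin k → Types L c r) → Types L c r}
    (hg : g ∈ TypeClone L Γ c r k) {gs : Fin k → (Fin N → Types L c r) → Types L c r}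
    (hgs : ∀ i, gs i ∈ TypeClone L Γ c r N) :
    (fun x => g fun i => gs i x) ∈ TypeClone L Γ c r N := by
  obtain ⟨f, hf1, hf2, hf3⟩ := hg
  choose fs h1 h2 h3 using hgs
  refine ⟨fun x => f fun i => fs i x, ?_, ?_, ?_⟩
  · intro R hR t ht
    exact hf1 R hR (fun i j => fs i fun l => t l j) fun i => h1 i R hR t ht
  · intro m a b hab
    exact hf2 m (fun i j => fs i fun l => a l j) (fun i j => fs i fun l => b l j)
      fun i => h2 i m a b hab
  · intro a
    show g (fun i => gs i fun l => Quotient.mk _ (a l)) = _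
    simp only [h3]
    exact hf3 fun i j => fs i fun l => a l j

theorem proj_mem {N : ℕ} (i : Fin N) : (fun x => x i) ∈ TypeClone L Γ c r N :=
  ⟨fun x => x i, fun _ _ _ ht => ht i, fun _ _ _ hab => hab i, fun _ => rfl⟩

/-- The relation generated by the tuples `v i`, `i < N`. -/
def gen (L : FirstOrder.Language.{0, 0}) {M : Type} [L.Structure M] (Γ : Set (Rel M)) {n : ℕ}
    (c : Fin n → M) {r N m : ℕ} (v : Fin N → Fin m → Types L c r) : Rel (Types L c r) :=
  ⟨m, {t | ∃ g ∈ TypeClone L Γ c r N, ∀ j, t j = g fun i => v i j}⟩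

theorem gen_preserves {N m : ℕ} (v : Fin N → Fin m → Types L c r) {k : ℕ}
    {g : (Fin k → Types L c r) → Types L c r} (hg : g ∈ TypeClone L Γ c r k) :
    Preserves g (gen L Γ c v) := by
  intro t ht
  choose gs h1 h2 using ht
  refine ⟨fun x => g fun i => gs i x, comp_mem hg h1, fun j => ?_⟩
  show g (fun i => t i j) = g fun i => gs i fun l => v l j
  congr 1
  funext i
  exact h2 i j

theorem gen_mem {N m : ℕ} (v : Fin N → Fin m → Types L c r) (i : Fin N) :
    v i ∈ (gen L Γ c v).2 := ⟨_, proj_mem i, fun _ => rfl⟩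

end General

/-! ### The rationals -/

theorem shift_mem {Γ : Set (Rel ℚ)} (hΓ : IsReduct Language.order Γ) {R : Rel ℚ} (hR : R ∈ Γ)
    {t : Fin R.1 → ℚ} (ht : t ∈ R.2) (q : ℚ) : (fun j => t j + q) ∈ R.2 := by
  obtain ⟨φ, hφ⟩ := Set.empty_definable_iff.1 (hΓ R hR)
  rw [hφ] at ht ⊢
  have h := StrongHomClass.realize_formula (L := Language.order) (OrderIso.addRight q) φ (v := t)
  exact h.2 ht

theorem exists_above {m : ℕ} (t : Fin m → ℚ) (γ : ℚ) : ∃ q : ℚ, ∀ j, γ < t j + q := by
  obtain ⟨B, hB⟩ := (Set.finite_range fun j => γ - t j).bddAbove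
  refine ⟨B + 1, fun j => ?_⟩
  have := hB ⟨j, rfl⟩
  simp only at this
  linarith

/-- A polymorphism that is constant far to the right yields a constant polymorphism. -/
theorem hasConstant {Γ : Set (Rel ℚ)} (hΓ : IsReduct Language.order Γ) {k : ℕ}
    {f : (Fin k → ℚ) → ℚ} (hf : f ∈ Pol Γ k) {γ : ℚ}
    (hc : ∀ a b, Up γ a → Up γ b → f a = f b) : HasConstant Γ := by
  refine ⟨f fun _ => γ + 1, fun R hR t ht => ?_⟩
  obtain ⟨q, hq⟩ := exists_above (t 0) γ
  have h1 := hf R hR (fun _ j => t 0 j + q) fun _ => shift_mem hΓ hR (ht 0) q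
  have h2 : (fun j => f fun _ => t 0 j + q) = fun _ : Fin R.1 => f fun _ => γ + 1 := by
    funext j
    exact hc _ _ (fun _ => hq j) (fun _ => by linarith)
  rw [h2] at h1
  exact h1

section Rat

variable {Γ : Set (Rel ℚ)} {n : ℕ} {c : Fin n → ℚ} {γ : ℚ}

/-- Two pairs of elements above `γ`. -/
def pt (γ : ℚ) (b : Bool) : Fin 2 → ℚ := if b = true then ![γ + 1, γ + 2] else ![γ + 2, γ + 1]

/-- Their types. -/
def val (c : Fin n → ℚ) (γ : ℚ) (b : Bool) : Types Language.order c 2 := Quotient.mk _ (pt γ b)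

open Classical in
/-- Whether the first entry of the pair is smaller than the second one. -/
noncomputable def sgn (c : Fin n → ℚ) : Types Language.order c 2 → Bool :=
  Quotient.lift (fun p => decide (p 0 < p 1)) fun a b hab => by
    have h : SameType Language.order c a b := hab
    have h1 : b 1 ≤ b 0 ↔ a 1 ≤ a 0 := (sameType_rat.1 h (Sum.inr 1) (Sum.inr 0)).symm
    rw [decide_eq_decide, ← not_le, ← not_le, h1]

theorem sgn_mk (a : Fin 2 → ℚ) : sgn c (Quotient.mk _ a) = true ↔ a 0 < a 1 := by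
  unfold sgn
  simp

theorem pt_lt (b : Bool) : pt γ b 0 < pt γ b 1 ↔ b = true := by
  cases b
  · simp [pt]
  · simp [pt]

theorem sgn_val (b : Bool) : sgn c (val c γ b) = b := by
  have h := sgn_mk (c := c) (pt γ b)
  rw [pt_lt] at h
  unfold val
  cases b
  · cases h2 : sgn c (Quotient.mk _ (pt γ false)) with
    | false => rfl
    | true => exact absurd (h.1 h2) (by simp)
  · exact h.2 rfl

/-- Operations of the type clone act on the signs as dictatorships. -/
theorem clone_dict (hγ : ∀ i, c i < γ) (hΓ : IsReduct Language.order Γ) (hno : ¬ HasConstant Γ)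
    {k : ℕ} {g : (Fin k → Types Language.order c 2) → Types Language.order c 2}
    (hg : g ∈ TypeClone Language.order Γ c 2 k) :
    ∃ (s : Bool) (d : Fin k), ∀ e : Fin k → Bool,
      sgn c (g fun i => val c γ (e i)) = (e d == s) := by
  obtain ⟨f, hf1, hf2, hf3⟩ := hg
  obtain ⟨s, d, h⟩ := dict hγ hf2 fun hc => hno (hasConstant hΓ hf1 hc)
  refine ⟨s, d, fun e => ?_⟩
  have hup : ∀ j : Fin 2, Up γ (fun i => pt γ (e i) j) := by
    intro j i
    show γ < pt γ (e i) j
    unfold pt
    cases e i <;> fin_cases j <;> simp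
  have hsg : Sg e (fun i => pt γ (e i) 0) (fun i => pt γ (e i) 1) := by
    intro i
    show (_ → pt γ (e i) 0 < pt γ (e i) 1) ∧ (_ → pt γ (e i) 1 < pt γ (e i) 0)
    unfold pt
    cases e i <;> simp
  have h1 := h e _ _ (hup 0) (hup 1) hsg
  have h2 : g (fun i => val c γ (e i)) = Quotient.mk _ (fun j => f fun i => pt γ (e i) j) :=
    hf3 fun i => pt γ (e i)
  have h3 := sgn_mk (c := c) (fun j => f fun i => pt γ (e i) j)
  rw [h2]
  rw [h1] at h3
  cases h4 : sgn c (Quotient.mk _ fun j => f fun i => pt γ (e i) j) with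
  | true =>
    rw [h3] at h4
    rw [h4]
    simp
  | false =>
    have h5 : ¬ e d = s := fun h5 => by
      rw [h3.2 h5] at h4
      simp at h4
    symm
    simpa using h5

theorem gen_sgn (hγ : ∀ i, c i < γ) (hΓ : IsReduct Language.order Γ) (hno : ¬ HasConstant Γ)
    {N m : ℕ} (u : Fin N → Fin m → Bool) {t : Fin m → Types Language.order c 2}
    (ht : t ∈ (gen Language.order Γ c (fun i j => val c γ (u i j))).2) :
    ∃ (s : Bool) (d : Fin N), ∀ j, sgn c (t j) = (u d j == s) := by
  obtain ⟨g, hg, hgt⟩ := ht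
  obtain ⟨s, d, h⟩ := clone_dict hγ hΓ hno hg
  refine ⟨s, d, fun j => ?_⟩
  rw [hgt j]
  exact h fun i => u i j

/-- Corresponding relations. -/
inductive Match {D E : Type} (φ : D → E) (ψ : E → D) : Rel D → Rel E → Prop
  | mk (m : ℕ) (X : Set (Fin m → D)) (Y : Set (Fin m → E))
      (h1 : ∀ t ∈ X, (fun j => φ (t j)) ∈ Y) (h2 : ∀ t ∈ Y, (fun j => ψ (t j)) ∈ X) :
      Match φ ψ ⟨m, X⟩ ⟨m, Y⟩

theorem Match.symm {D E : Type} {φ : D → E} {ψ : E → D} {R : Rel D} {R' : Rel E}
    (h : Match φ ψ R R') : Match ψ φ R' R := by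
  cases h with
  | mk m X Y h1 h2 => exact Match.mk m Y X h2 h1

theorem csp_mono {D E : Type} {l : List (Rel D)} {l' : List (Rel E)} (φ : D → E) (ψ : E → D)
    (h : List.Forall₂ (Match φ ψ) l l') {I : List (ℕ × List ℕ)} (hI : CSP l I) : CSP l' I := by
  rw [List.forall₂_iff_get] at h
  obtain ⟨hlen, hget⟩ := h
  obtain ⟨w, hw⟩ := hI
  refine ⟨fun x => φ (w x), fun C hC => ?_⟩
  obtain ⟨R, v, hR, hv, hm⟩ := hw C hC
  obtain ⟨h1, h2⟩ := List.getElem?_eq_some_iff.1 hR
  have h3 := hget C.1 h1 (hlen ▸ h1)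
  simp only [List.get_eq_getElem] at h3
  rw [h2] at h3
  have h4 : l'[C.1]? = some (l'[C.1]'(hlen ▸ h1)) := List.getElem?_eq_getElem (hlen ▸ h1)
  generalize l'[C.1]'(hlen ▸ h1) = R' at h3 h4
  cases h3 with
  | mk m X Y h5 h6 => exact ⟨⟨m, Y⟩, v, h4, hv, h5 _ hm⟩

/-- Lists of relations with the same constraint satisfaction problem. -/
theorem csp_eq {D E : Type} {l : List (Rel D)} {l' : List (Rel E)} (φ : D → E) (ψ : E → D)
    (h : List.Forall₂ (Match φ ψ) l l') : CSP l = CSP l' := by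
  funext I
  refine propext ⟨csp_mono φ ψ h, csp_mono ψ φ ?_⟩
  exact (h.imp fun _ _ hm => hm.symm).flip

theorem exists_enum {m : ℕ} (B : Set (Fin m → Bool)) :
    ∃ (N : ℕ) (u : Fin N → Fin m → Bool), ∀ t, t ∈ B ↔ ∃ i, u i = t := by
  obtain ⟨N, ⟨e⟩⟩ := Finite.exists_equiv_fin B
  refine ⟨N, fun i => (e.symm i).1, fun t => ⟨fun ht => ⟨e ⟨t, ht⟩, by simp⟩, ?_⟩⟩
  rintro ⟨i, rfl⟩
  exact (e.symm i).2

theorem gen_spec (hγ : ∀ i, c i < γ) (hΓ : IsReduct Language.order Γ) (hno : ¬ HasConstant Γ)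
    {m : ℕ} (Y : Set (Fin m → Bool)) (hY : ∀ t ∈ Y, (fun j => !t j) ∈ Y) :
    ∃ X : Set (Fin m → Types Language.order c 2),
      (∀ k, ∀ g ∈ TypeClone Language.order Γ c 2 k, Preserves g ⟨m, X⟩) ∧
      (∀ t ∈ X, (fun j => sgn c (t j)) ∈ Y) ∧ (∀ t ∈ Y, (fun j => val c γ (t j)) ∈ X) := by
  obtain ⟨N, u, hu⟩ := exists_enum Y
  refine ⟨(gen Language.order Γ c fun i j => val c γ (u i j)).2,
    fun k g hg => gen_preserves _ hg, fun t ht => ?_, fun t ht => ?_⟩
  · obtain ⟨s, d, h⟩ := gen_sgn hγ hΓ hno u ht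
    have h1 : u d ∈ Y := (hu _).2 ⟨d, rfl⟩
    cases s
    · have h2 := hY _ h1
      have h3 : (fun j => sgn c (t j)) = fun j => !u d j := by
        funext j
        rw [h j]
        cases u d j <;> rfl
      rw [h3]
      exact h2
    · have h3 : (fun j => sgn c (t j)) = fun j => u d j := by
        funext j
        rw [h j]
        cases u d j <;> rfl
      rw [h3]
      exact h1
  · obtain ⟨i, rfl⟩ := (hu t).1 ht
    exact gen_mem (fun i j => val c γ (u i j)) i

theorem above (c : Fin n → ℚ) : ∃ γ : ℚ, ∀ i, c i < γ := by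
  obtain ⟨B, hB⟩ := (Set.finite_range c).bddAbove
  exact ⟨B + 1, fun i => lt_of_le_of_lt (hB ⟨i, rfl⟩) (lt_add_one B)⟩

/-- No type clone over `(ℚ; ≤)` is tractable unless `P = NP` or there are constant polymorphisms. -/
theorem collapse (hΓ : IsReduct Language.order Γ) (hno : ¬ HasConstant Γ)
    (h : CloneTractable (TypeClone Language.order Γ c 2)) : PEqNP := by
  obtain ⟨γ, hγ⟩ := above c
  obtain ⟨X1, p1, q1, r1⟩ := gen_spec hγ hΓ hno NAE4.2 (by
    rintro t ⟨i, j, hij⟩
    exact ⟨i, j, fun h => hij (by simpa using h)⟩)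
  obtain ⟨X2, p2, q2, r2⟩ := gen_spec hγ hΓ hno NE2.2 (by
    intro t ht h
    exact ht (by simpa using h))
  have h1 : InPP (CSP [(⟨NAE4.1, X1⟩ : Rel (Types Language.order c 2)), ⟨NE2.1, X2⟩]) := h _ (by
    intro R hR k _ g hg
    simp only [List.mem_cons, List.not_mem_nil, or_false] at hR
    rcases hR with rfl | rfl
    · exact p1 k g hg
    · exact p2 k g hg)
  rw [csp_eq (sgn c) (val c γ) (l' := [NAE4, NE2])
    (List.Forall₂.cons (Match.mk NAE4.1 X1 NAE4.2 q1 r1)
      (List.Forall₂.cons (Match.mk NE2.1 X2 NE2.2 q2 r2) List.Forall₂.nil))] at h1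
  exact nae_collapse h1

/-- The type clones over `(ℚ; ≤)` have minion homomorphisms to the projections, unless there are
constant polymorphisms. -/
theorem minionHom (hΓ : IsReduct Language.order Γ) (hno : ¬ HasConstant Γ) :
    MinionHomToProjections (TypeClone Language.order Γ c 2) := by
  obtain ⟨γ, hγ⟩ := above c
  have hd := fun (k : ℕ) (g : TypeClone Language.order Γ c 2 k) => clone_dict hγ hΓ hno g.2
  choose s d h using hd
  refine ⟨d, fun k m g g' π hπ => ?_⟩
  by_contra hne
  let e : Fin m → Bool := fun i => decide (i = d m g')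
  have h1 := h m g' e
  have h2 := h m g' fun i => !e i
  have h3 := h k g fun i => e (π i)
  have h4 := h k g fun i => !e (π i)
  have a1 := hπ fun i => val c γ (e i)
  have a2 := hπ fun i => val c γ (!e i)
  have a5 := hπ fun _ => val c γ true
  have h5 := h m g' fun _ => true
  have h6 := h k g fun _ => true
  have e1 : e (d m g') = true := by simp [e]
  have e2 : e (π (d k g)) = false := by
    simp only [e, decide_eq_false_iff_not]
    exact fun h => hne h.symm
  rw [a1, h3, e1, e2] at h1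
  rw [a5, h6] at h5
  revert h1 h5
  generalize s m g' = x
  generalize s k g = y
  cases x <;> cases y <;> simp

theorem lt_reduct : IsReduct Language.order ({ltRel} : Set (Rel ℚ)) := by
  rintro R rfl
  rw [Set.empty_definable_iff]
  let φ : Language.order.Formula (Fin 2) :=
    (leSymb : Language.order.Relations 2).formula₂ (Term.var 1) (Term.var 0)
  refine ⟨φ.not, ?_⟩
  show {t : Fin 2 → ℚ | t 0 < t 1} = _
  ext t
  have h1 : φ.Realize t ↔ t 1 ≤ t 0 := by
    show ((leSymb : Language.order.Relations 2).formula₂ (Term.var 1) (Term.var 0)).Realize t ↔ _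
    rw [Formula.realize_rel₂]
    exact Iff.rfl
  exact not_le.symm.trans ((Formula.realize_not.trans (not_congr h1)).symm)

theorem lt_noConstant : ¬ HasConstant ({ltRel} : Set (Rel ℚ)) := by
  rintro ⟨q, hq⟩
  have h := hq ltRel rfl (fun _ => ![0, 1]) (fun _ => by
    show (0 : ℚ) < 1
    norm_num)
  exact lt_irrefl q h

theorem rat_isBase : IsBase Language.order ℚ where
  countable := inferInstance
  relational := inferInstance
  finite := inferInstance
  homogeneous := rat_hom
  finitelyBounded := rat_finitelyBounded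
  ordered := rat_ordered
  ramsey := rat_ramsey

end Rat

theorem tractable_of_peqnp (h : PEqNP) (L : FirstOrder.Language.{0, 0}) (M : Type) [L.Structure M]
    (hM : IsBase L M) (Γ : Set (Rel M)) {n : ℕ} (c : Fin n → M) (r : ℕ) :
    CloneTractable (TypeClone L Γ c r) := by
  intro l _
  have := hM.relational
  have := hM.finite
  have := finite_types hM.homogeneous c r
  exact finite_inP h l

end Pool.Agent.R617.TC
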