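import Pool.Agent.R617.TC.Defs
import Pool.Agent.NPC.Sat2
import Pool.Agent.NPC.Dec

/-!
# Complexity of three kinds of constraint satisfaction problems
-/

set_option autoImplicit false

namespace Pool.Agent.R617.TC

open Pool.Agent.NPC

/-! ### Not-all-equal satisfiability -/

/-- Not all of four bits are equal. -/
def NAE4 : Rel Bool := ⟨4, {t | ∃ i j, t i ≠ t j}⟩

/-- Two different bits. -/
def NE2 : Rel Bool := ⟨2, {t | t 0 ≠ t 1}⟩

/-- The variable of a literal. -/
def lv (p : Lit ℕ) : ℕ := if p.1 = true then 2 * p.2 + 1 else 2 * p.2 + 2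

/-- The constraints of a clause. -/
def clauseC (c : Lit ℕ × Lit ℕ × Lit ℕ) : List (ℕ × List ℕ) :=
  [(0, [lv c.1, lv c.2.1, lv c.2.2, 0]), (1, [2 * c.1.2 + 1, 2 * c.1.2 + 2]),
    (1, [2 * c.2.1.2 + 1, 2 * c.2.1.2 + 2]), (1, [2 * c.2.2.2 + 1, 2 * c.2.2.2 + 2])]

theorem lv_poly : Poly lv := by
  unfold lv
  exact Poly.ite (p := fun p : Lit ℕ => p.1 = true) (Poly.decide_bool (Poly.fst Poly.id))
    (Poly.succ (Poly.mul (NPC.Poly.const 2) (Poly.snd Poly.id)))
    (Poly.add (Poly.mul (NPC.Poly.const 2) (Poly.snd Poly.id)) (NPC.Poly.const 2))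

theorem clauseC_poly : Poly clauseC := by
  have h1 : Poly (fun c : Lit ℕ × Lit ℕ × Lit ℕ => c.1) := Poly.fst Poly.id
  have h2 : Poly (fun c : Lit ℕ × Lit ℕ × Lit ℕ => c.2.1) := Poly.fst (Poly.snd Poly.id)
  have h3 : Poly (fun c : Lit ℕ × Lit ℕ × Lit ℕ => c.2.2) := Poly.snd (Poly.snd Poly.id)
  have hp : ∀ {f : Lit ℕ × Lit ℕ × Lit ℕ → Lit ℕ}, Poly f →
      Poly (fun c => ((1, [2 * (f c).2 + 1, 2 * (f c).2 + 2]) : ℕ × List ℕ)) := by
    intro f hf
    have h : Poly (fun c => 2 * (f c).2) := Poly.mul (NPC.Poly.const 2) (Poly.snd hf)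
    exact Poly.pair (NPC.Poly.const 1) (Poly.cons (Poly.succ h)
      (Poly.cons (Poly.add h (NPC.Poly.const 2)) (NPC.Poly.const [])))
  exact Poly.cons (Poly.pair (NPC.Poly.const 0) (Poly.cons (lv_poly.comp h1)
    (Poly.cons (lv_poly.comp h2) (Poly.cons (lv_poly.comp h3)
      (Poly.cons (NPC.Poly.const 0) (NPC.Poly.const []))))))
    (Poly.cons (hp h1) (Poly.cons (hp h2) (Poly.cons (hp h3) (NPC.Poly.const []))))

theorem ofFn4 (a b c d : ℕ) : [a, b, c, d] = List.ofFn (![a, b, c, d] : Fin 4 → ℕ) := by simp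

theorem ofFn2 (a b : ℕ) : [a, b] = List.ofFn (![a, b] : Fin 2 → ℕ) := by simp

theorem con_nae {h : ℕ → Bool} {a b c d : ℕ} :
    (∃ (R : Rel Bool) (v : Fin R.1 → ℕ), [NAE4, NE2][0]? = some R ∧ [a, b, c, d] = List.ofFn v ∧
      (fun j => h (v j)) ∈ R.2) ↔ ¬ (h a = h d ∧ h b = h d ∧ h c = h d) := by
  constructor
  · rintro ⟨R, w, hR, hw, hm⟩
    have hR' : NAE4 = R := Option.some.inj hR
    subst hR'
    change Fin 4 → ℕ at w
    obtain ⟨i, j, hij⟩ := hm
    change h (w i) ≠ h (w j) at hij
    have e : w = ![a, b, c, d] := by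
      have h2 : List.ofFn w = List.ofFn ![a, b, c, d] := hw.symm.trans (by simp)
      exact List.ofFn_injective h2
    rintro ⟨h1, h2, h3⟩
    have all : ∀ i : Fin 4, h (w i) = h d := by
      intro i
      rw [e]
      fin_cases i
      · exact h1
      · exact h2
      · exact h3
      · rfl
    exact hij (by rw [all, all])
  · intro hn
    refine ⟨NAE4, ![a, b, c, d], rfl, ofFn4 a b c d, ?_⟩
    by_contra hcon
    apply hn
    have h1 : ∀ i j : Fin 4, h (![a, b, c, d] i) = h (![a, b, c, d] j) := by
      intro i j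
      by_contra hne
      exact hcon ⟨i, j, hne⟩
    exact ⟨h1 0 3, h1 1 3, h1 2 3⟩

theorem con_ne {h : ℕ → Bool} {a b : ℕ} :
    (∃ (R : Rel Bool) (v : Fin R.1 → ℕ), [NAE4, NE2][1]? = some R ∧ [a, b] = List.ofFn v ∧
      (fun j => h (v j)) ∈ R.2) ↔ h a ≠ h b := by
  constructor
  · rintro ⟨R, w, hR, hw, hm⟩
    have hR' : NE2 = R := Option.some.inj hR
    subst hR'
    change Fin 2 → ℕ at w
    have e : w = ![a, b] := by
      have h2 : List.ofFn w = List.ofFn ![a, b] := hw.symm.trans (by simp)
      exact List.ofFn_injective h2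
    subst e
    exact hm
  · intro hn
    exact ⟨NE2, ![a, b], rfl, ofFn2 a b, hn⟩

theorem holds_iff (φ : List (Lit ℕ × Lit ℕ × Lit ℕ)) : CSP [NAE4, NE2] (φ.flatMap clauseC) ↔
    ∃ h : ℕ → Bool, ∀ c ∈ φ,
      ¬ (h (lv c.1) = h 0 ∧ h (lv c.2.1) = h 0 ∧ h (lv c.2.2) = h 0) ∧
      h (2 * c.1.2 + 1) ≠ h (2 * c.1.2 + 2) ∧ h (2 * c.2.1.2 + 1) ≠ h (2 * c.2.1.2 + 2) ∧
      h (2 * c.2.2.2 + 1) ≠ h (2 * c.2.2.2 + 2) := by
  unfold CSP
  refine exists_congr fun h => ?_
  constructor
  · intro hh c hc
    have get : ∀ C ∈ clauseC c, ∃ (R : Rel Bool) (v : Fin R.1 → ℕ),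
        [NAE4, NE2][C.1]? = some R ∧ C.2 = List.ofFn v ∧ (fun j => h (v j)) ∈ R.2 :=
      fun C hC => hh C (List.mem_flatMap.2 ⟨c, hc, hC⟩)
    unfold clauseC at get
    exact ⟨con_nae.1 (get (0, [lv c.1, lv c.2.1, lv c.2.2, 0]) (by simp)),
      con_ne.1 (get (1, [2 * c.1.2 + 1, 2 * c.1.2 + 2]) (by simp)),
      con_ne.1 (get (1, [2 * c.2.1.2 + 1, 2 * c.2.1.2 + 2]) (by simp)),
      con_ne.1 (get (1, [2 * c.2.2.2 + 1, 2 * c.2.2.2 + 2]) (by simp))⟩
  · intro hh C hC
    rw [List.mem_flatMap] at hC
    obtain ⟨c, hc, hC⟩ := hC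
    obtain ⟨h1, h2, h3, h4⟩ := hh c hc
    simp only [clauseC, List.mem_cons, List.not_mem_nil, or_false] at hC
    rcases hC with rfl | rfl | rfl | rfl
    · exact con_nae.2 h1
    · exact con_ne.2 h2
    · exact con_ne.2 h3
    · exact con_ne.2 h4

theorem lv_true (v : ℕ) : lv (true, v) = 2 * v + 1 := rfl
theorem lv_false (v : ℕ) : lv (false, v) = 2 * v + 2 := rfl

theorem lit_key {h : ℕ → Bool} (p : Lit ℕ) (h1 : h (2 * p.2 + 1) ≠ h (2 * p.2 + 2)) :
    xor (h (2 * p.2 + 1)) (h 0) = p.1 ↔ h (lv p) ≠ h 0 := by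
  rcases p with ⟨b, v⟩
  simp only at h1
  cases b
  · rw [lv_false]
    simp only
    revert h1
    generalize h (2 * v + 1) = x
    generalize h (2 * v + 2) = y
    generalize h 0 = z
    cases x <;> cases y <;> cases z <;> decide
  · rw [lv_true]
    simp only
    revert h1
    generalize h (2 * v + 1) = x
    generalize h (2 * v + 2) = y
    generalize h 0 = z
    cases x <;> cases y <;> cases z <;> decide

theorem red_correct (φ : List (Lit ℕ × Lit ℕ × Lit ℕ)) :
    SAT3 φ ↔ CSP [NAE4, NE2] (φ.flatMap clauseC) := by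
  rw [holds_iff]
  constructor
  · rintro ⟨τ, hτ⟩
    -- variable `0` is false, `2 v + 1` is `v`, `2 v + 2` is its negation
    let h : ℕ → Bool := fun n => if n = 0 then false else
      if n % 2 = 1 then τ (n / 2) else !(τ (n / 2 - 1))
    have h0 : h 0 = false := rfl
    have h1 : ∀ v, h (2 * v + 1) = τ v := fun v => by
      have e1 : (2 * v + 1) % 2 = 1 := by omega
      have e2 : (2 * v + 1) / 2 = v := by omega
      simp only [h, e1, e2, if_true]
      rw [if_neg (by omega)]
    have h2 : ∀ v, h (2 * v + 2) = !(τ v) := fun v => by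
      have e1 : (2 * v + 2) % 2 = 0 := by omega
      have e2 : (2 * v + 2) / 2 - 1 = v := by omega
      simp only [h, e1, e2]
      rw [if_neg (by omega), if_neg (by omega)]
    have hne : ∀ v, h (2 * v + 1) ≠ h (2 * v + 2) := by
      intro v
      rw [h1, h2]
      cases τ v <;> decide
    refine ⟨h, fun c hc => ⟨?_, hne _, hne _, hne _⟩⟩
    rintro ⟨a1, a2, a3⟩
    have key : ∀ p : Lit ℕ, h (lv p) = h 0 → τ p.2 ≠ p.1 := by
      intro p hp hcon
      have := (lit_key p (hne _)).1
      rw [h1, h0, Bool.xor_false] at this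
      exact this hcon (by rw [hp, h0])
    rcases hτ c hc with b1 | b1 | b1
    · exact key _ a1 b1
    · exact key _ a2 b1
    · exact key _ a3 b1
  · rintro ⟨h, hh⟩
    refine ⟨fun v => xor (h (2 * v + 1)) (h 0), fun c hc => ?_⟩
    obtain ⟨n0, n1, n2, n3⟩ := hh c hc
    rw [lit_key _ n1, lit_key _ n2, lit_key _ n3]
    by_contra hcon
    push Not at hcon
    exact n0 hcon

/-- The Boolean constraint satisfaction problem is hard. -/
theorem nae_collapse (h : InPP (CSP [NAE4, NE2])) : PEqNP := by
  have h1 : HardI (CSP [NAE4, NE2]) := by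
    refine hardI_SAT3.trans (f := fun φ => φ.flatMap clauseC) ?_ red_correct
    exact Poly.flatMap (F := fun _ c => clauseC c) Poly.id (clauseC_poly.comp (Poly.snd Poly.id))
  exact fun A hA => NPHard.collapse h1.toNPHardP h A hA

/-! ### Problems with a finite template are in `NP` -/

section Finite

variable {S : Type} {s : ℕ} (e : S ≃ Fin (s + 1))

/-- The value of the variable `v` in the assignment `w`. -/
def look (w : List (ℕ × ℕ)) (v : ℕ) : ℕ :=
  match (w.filter (fun p => decide (p.1 = v))).head? with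
  | none => 0
  | some p => p.2

theorem look_poly {α : Type} [TEnc α] {w : α → List (ℕ × ℕ)} {v : α → ℕ} (hw : Poly w)
    (hv : Poly v) : Poly (fun a => look (w a) (v a)) :=
  (Poly.optCases (g := fun _ => 0) (h := fun _ p => p.2)
    (Poly.head? (Poly.filter (p := fun a (p : ℕ × ℕ) => decide (p.1 = v a)) hw
      (Poly.decide_eq (Poly.fst (Poly.snd Poly.id)) (hv.comp (Poly.fst Poly.id)))))
    (NPC.Poly.const 0) (Poly.snd (Poly.snd Poly.id))).congr fun a => by
      unfold look
      cases ((w a).filter (fun p => decide (p.1 = v a))).head? <;> rfl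

open Classical in
/-- The table of a relation. -/
noncomputable def tab (R : Rel S) : List (List ℕ) :=
  letI : Finite (Fin R.1 → S) := by
    have := Finite.of_equiv _ e.symm
    infer_instance
  letI := Fintype.ofFinite (Fin R.1 → S)
  (Finset.univ.filter (fun t : Fin R.1 → S => t ∈ R.2)).toList.map
    fun t => List.ofFn fun j => (e (t j)).val

theorem mem_tab {R : Rel S} {x : List ℕ} :
    x ∈ tab e R ↔ ∃ t ∈ R.2, x = List.ofFn fun j => (e (t j)).val := by
  classical
  unfold tab
  simp only [List.mem_map, Finset.mem_toList, Finset.mem_filter, Finset.mem_univ, true_and]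
  constructor
  · rintro ⟨t, ht, rfl⟩
    exact ⟨t, ht, rfl⟩
  · rintro ⟨t, ht, rfl⟩
    exact ⟨t, ht, rfl⟩

/-- Checking a constraint. -/
noncomputable def chk (l : List (Rel S)) (w : List (ℕ × ℕ)) (C : ℕ × List ℕ) : Bool :=
  match (l.map (tab e))[C.1]? with
  | none => false
  | some T => decide (C.2.map (look w) ∈ T)

theorem chk_poly (l : List (Rel S)) :
    Poly (fun p : List (ℕ × ℕ) × (ℕ × List ℕ) => chk e l p.1 p.2) := by
  refine (Poly.optCases (o := fun p : List (ℕ × ℕ) × (ℕ × List ℕ) => (l.map (tab e))[p.2.1]?)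
    (g := fun _ => false) (h := fun p T => decide (p.2.2.map (look p.1) ∈ T))
    (Poly.getElem? (NPC.Poly.const _) (Poly.fst (Poly.snd Poly.id))) (NPC.Poly.const false)
      ?_).congr fun p => by
      unfold chk
      cases (l.map (tab e))[p.2.1]? <;> rfl
  refine (Poly.decide_mem (NPC.Poly.map
    (F := fun (q : (List (ℕ × ℕ) × (ℕ × List ℕ)) × List (List ℕ)) v =>
      look q.1.1 v) (Poly.snd (Poly.snd (Poly.fst Poly.id))) ?_) (Poly.snd Poly.id)).congr
    fun p => decide_eq_decide.2 Iff.rfl
  exact look_poly (Poly.fst (Poly.fst (Poly.fst Poly.id))) (Poly.snd Poly.id)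

/-- The variables of an instance. -/
def vars (I : List (ℕ × List ℕ)) : List ℕ := I.flatMap (fun C => C.2)

theorem look_map {V : List ℕ} (g : ℕ → ℕ) {v : ℕ} (hv : v ∈ V) :
    look (V.map fun v => (v, g v)) v = g v := by
  unfold look
  have h : ∀ p ∈ ((V.map fun v => (v, g v)).filter (fun p => decide (p.1 = v))), p.2 = g v := by
    intro p hp
    simp only [List.mem_filter, List.mem_map, decide_eq_true_eq] at hp
    obtain ⟨⟨u, _, rfl⟩, rfl⟩ := hp
    rfl
  have h2 : (v, g v) ∈ ((V.map fun v => (v, g v)).filter (fun p => decide (p.1 = v))) := by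
    simp only [List.mem_filter, List.mem_map, decide_eq_true_eq, and_true]
    exact ⟨v, hv, rfl⟩
  cases h3 : ((V.map fun v => (v, g v)).filter (fun p => decide (p.1 = v))) with
  | nil => rw [h3] at h2; simp at h2
  | cons p q =>
    rw [h3] at h
    exact h p (by simp)

theorem vars_sz (I : List (ℕ × List ℕ)) : sz (vars I) ≤ sz I := by
  unfold vars
  induction I with
  | nil => simp
  | cons C I ih =>
    have h1 := sz_append C.2 (I.flatMap fun C => C.2)
    simp only [List.flatMap_cons]
    have h2 : sz (C :: I) = sz C + sz I + 1 := by simp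
    have h3 : sz C = sz C.1 + sz C.2 + 1 := sz_pair _ _
    omega

include e in
theorem finite_inNP (l : List (Rel S)) : InNPP (CSP l) := by
  refine inNPP_of (β := List (ℕ × ℕ)) (R := fun p => p.1.all (chk e l p.2)) ?_
    (Polynomial.X * (Polynomial.X + Polynomial.C (2 * sz s + 2)) + Polynomial.C 1) ?_
  · exact Poly.all (p := fun (p : List (ℕ × List ℕ) × List (ℕ × ℕ)) C => chk e l p.2 C)
      (Poly.fst Poly.id) ((chk_poly e l).comp (Poly.pair (Poly.snd (Poly.fst Poly.id))
        (Poly.snd Poly.id)))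
  · intro I
    constructor
    · rintro ⟨h, hh⟩
      refine ⟨(vars I).map fun v => (v, (e (h v)).val), ?_, ?_⟩
      · have h1 := sz_le_length_mul ((vars I).map fun v => (v, (e (h v)).val))
          (sz I + (2 * sz s + 1)) (by
            intro c hc
            rw [List.mem_map] at hc
            obtain ⟨v, hv, rfl⟩ := hc
            have h2 := sz_le_of_mem hv
            have h3 := vars_sz I
            have h4 : (e (h v)).val ≤ s := Nat.lt_succ_iff.1 (e (h v)).2
            have h5 := sz_nat_mono_le h4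
            have h6 : sz (v, (e (h v)).val) = sz v + sz (e (h v)).val + 1 := sz_pair _ _
            omega)
        refine h1.trans ?_
        simp only [Polynomial.eval_add, Polynomial.eval_mul, Polynomial.eval_X,
          Polynomial.eval_C, List.length_map]
        have h7 := length_lt_sz (vars I)
        have h8 := vars_sz I
        exact Nat.add_le_add_right (Nat.mul_le_mul (by omega) (by omega)) 1
      · rw [List.all_eq_true]
        intro C hC
        obtain ⟨R, v, hR, hv, hm⟩ := hh C hC
        unfold chk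
        rw [List.getElem?_map, hR]
        simp only [Option.map_some, decide_eq_true_eq]
        rw [mem_tab]
        refine ⟨_, hm, ?_⟩
        rw [hv, List.map_ofFn]
        congr 1
        funext j
        show look _ (v j) = _
        rw [look_map (fun v => (e (h v)).val)]
        unfold vars
        rw [List.mem_flatMap]
        exact ⟨C, hC, by rw [hv]; simp⟩
    · rintro ⟨w, -, hw⟩
      rw [List.all_eq_true] at hw
      refine ⟨fun v => e.symm (Fin.ofNat (s + 1) (look w v)), fun C hC => ?_⟩
      have h1 := hw C hC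
      unfold chk at h1
      rw [List.getElem?_map] at h1
      cases hR : l[C.1]? with
      | none => rw [hR] at h1; simp at h1
      | some R =>
        rw [hR] at h1
        simp only [Option.map_some, decide_eq_true_eq] at h1
        rw [mem_tab] at h1
        obtain ⟨t, ht, hx⟩ := h1
        have hlen : C.2.length = R.1 := by
          have := congrArg List.length hx
          simpa using this
        refine ⟨R, fun j => C.2[j.val]'(by rw [hlen]; exact j.2), rfl, ?_, ?_⟩
        · apply List.ext_getElem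
          · simp [hlen]
          · intro i h1 h2
            simp
        · have : (fun j : Fin R.1 => e.symm (Fin.ofNat (s + 1)
              (look w (C.2[j.val]'(by rw [hlen]; exact j.2))))) = t := by
            funext j
            have h2 : look w (C.2[j.val]'(by rw [hlen]; exact j.2)) = (e (t j)).val := by
              have h3 := congrArg (fun x => x[j.val]?) hx
              simp only [List.getElem?_map] at h3
              rw [List.getElem?_eq_getElem (by rw [hlen]; exact j.2)] at h3
              simpa using h3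
            rw [h2]
            have h4 : Fin.ofNat (s + 1) (e (t j)).val = e (t j) := by
              apply Fin.ext
              simp
            rw [h4, e.symm_apply_apply]
          rw [this]
          exact ht

end Finite

theorem finite_inP (hP : PEqNP) {S : Type} [Finite S] (l : List (Rel S)) : InPP (CSP l) := by
  rcases isEmpty_or_nonempty S with hS | hS
  · refine inPP_of (d := fun _ => false) (NPC.Poly.const false) fun I => ?_
    simp only [Bool.false_eq_true, iff_false]
    rintro ⟨h, -⟩
    exact hS.elim (h 0)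
  · obtain ⟨n, ⟨e⟩⟩ := Finite.exists_equiv_fin S
    cases n with
    | zero => exact (e hS.some).elim0
    | succ s => exact hP _ (finite_inNP e l)

end Pool.Agent.R617.TC
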