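import Pool.Agent.NPC.Classes

/-!
# Type clones of canonical polymorphisms: definitions
-/

set_option autoImplicit false

namespace Pool.Agent.R617.TC

open FirstOrder Pool.Agent.NPC

/-! ### The structure `Δ`: an `L`-structure `M` -/

/-- `M` is finitely bounded: for some finite set `F` of finite structures, a finite structure embeds
into `M` if and only if no member of `F` embeds into it. -/
def FinitelyBounded (L : FirstOrder.Language.{0, 0}) (M : Type) [L.Structure M] : Prop :=
  ∃ F : Set (Σ n : ℕ, L.Structure (Fin n)), F.Finite ∧
    ∀ (n : ℕ) (A : L.Structure (Fin n)),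
      Nonempty (@FirstOrder.Language.Embedding L (Fin n) M A _) ↔
        ∀ B ∈ F, ¬ Nonempty (@FirstOrder.Language.Embedding L (Fin B.1) (Fin n) B.2 A)

/-- `M` is ordered: one of its binary relations is a (strict or reflexive) linear order of `M`. -/
def Ordered (L : FirstOrder.Language.{0, 0}) (M : Type) [L.Structure M] : Prop :=
  ∃ (R : L.Relations 2) (_ : LinearOrder M),
    (∀ x y : M, FirstOrder.Language.Structure.RelMap R ![x, y] ↔ x < y) ∨
    (∀ x y : M, FirstOrder.Language.Structure.RelMap R ![x, y] ↔ x ≤ y)

/-- `M` is Ramsey: the class of its finite substructures has the Ramsey property. For all finite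
substructures `A`, `B` and every number `k ≥ 1` of colours there is a finite substructure `C` such
that for every colouring `χ` of the substructures of `M` with `k` colours there is a copy `B'` of
`B` in `C` all of whose substructures isomorphic to `A` have the same colour. -/
def Ramsey (L : FirstOrder.Language.{0, 0}) (M : Type) [L.Structure M] : Prop :=
  ∀ (A B : L.Substructure M), Finite A → Finite B → ∀ k : ℕ, 1 ≤ k →
    ∃ C : L.Substructure M, Finite C ∧ ∀ χ : L.Substructure M → Fin k,
      ∃ B' ≤ C, Nonempty (B' ≃[L] B) ∧ ∃ i : Fin k, ∀ A' ≤ B', Nonempty (A' ≃[L] A) → χ A' = i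

/-- The tuples `a` and `b` have the same (first-order) type in the expansion of `M` by the
constants `c`. -/
def SameType (L : FirstOrder.Language.{0, 0}) {M : Type} [L.Structure M] {n m : ℕ} (c : Fin n → M)
    (a b : Fin m → M) : Prop :=
  ∀ φ : L.Formula (Fin n ⊕ Fin m), φ.Realize (Sum.elim c a) ↔ φ.Realize (Sum.elim c b)

/-- Having the same type over `c`, as an equivalence relation on `r`-tuples. -/
def typeSetoid (L : FirstOrder.Language.{0, 0}) {M : Type} [L.Structure M] {n : ℕ} (c : Fin n → M)
    (r : ℕ) : Setoid (Fin r → M) where
  r := SameType L c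
  iseqv := ⟨fun _ _ => Iff.rfl, fun h φ => (h φ).symm, fun h h' φ => (h φ).trans (h' φ)⟩

/-- The set of types of `r`-tuples in the expansion of `M` by the constants `c`. -/
abbrev Types (L : FirstOrder.Language.{0, 0}) {M : Type} [L.Structure M] {n : ℕ} (c : Fin n → M)
    (r : ℕ) : Type := Quotient (typeSetoid L c r)

/-- `f` is canonical for `(M, c)`: the type over `c` of the value at tuples `a 0, ..., a (k - 1)`,
computed componentwise, is determined by the types over `c` of these tuples. -/
def Canonical (L : FirstOrder.Language.{0, 0}) {M : Type} [L.Structure M] {n : ℕ} (c : Fin n → M)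
    {k : ℕ} (f : (Fin k → M) → M) : Prop :=
  ∀ (m : ℕ) (a b : Fin k → Fin m → M), (∀ i, SameType L c (a i) (b i)) →
    SameType L c (fun j => f fun i => a i j) (fun j => f fun i => b i j)

/-! ### Relational structures on a set, given by their sets of relations -/

/-- Finitary relations on `D`. -/
abbrev Rel (D : Type) : Type := Σ k : ℕ, Set (Fin k → D)

/-- The operation `f` preserves the relation `R`. -/
def Preserves {D : Type} {k : ℕ} (f : (Fin k → D) → D) (R : Rel D) : Prop :=
  ∀ t : Fin k → Fin R.1 → D, (∀ i, t i ∈ R.2) → (fun j => f fun i => t i j) ∈ R.2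

/-- The structure with the relations `Γ` is a (first-order) reduct of the `L`-structure `M`. -/
def IsReduct (L : FirstOrder.Language.{0, 0}) {M : Type} [L.Structure M] (Γ : Set (Rel M)) : Prop :=
  ∀ R ∈ Γ, (∅ : Set M).Definable L R.2

/-- The `k`-ary polymorphisms of the structure with the relations `Γ`. -/
def Pol {D : Type} (Γ : Set (Rel D)) (k : ℕ) : Set ((Fin k → D) → D) :=
  {f | ∀ R ∈ Γ, Preserves f R}

/-- The type clone: the `k`-ary operations on the set of types of `r`-tuples over `c` that are
induced by canonical polymorphisms of `Γ`. -/
def TypeClone (L : FirstOrder.Language.{0, 0}) {M : Type} [L.Structure M] (Γ : Set (Rel M)) {n : ℕ}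
    (c : Fin n → M) (r k : ℕ) : Set ((Fin k → Types L c r) → Types L c r) :=
  {g | ∃ f ∈ Pol Γ k, Canonical L c f ∧
    ∀ a : Fin k → Fin r → M, g (fun i => Quotient.mk _ (a i)) =
      Quotient.mk _ (fun j => f fun i => a i j)}

/-! ### Constraint satisfaction problems -/

/-- The constraint satisfaction problem of the structure on `D` with relations `l 0, l 1, ...`.
An instance is a finite list of constraints (a finite structure given by the list of its tuples);
the constraint `(i, [v₁, ..., vₖ])` says that `(h v₁, ..., h vₖ)` is in the `i`-th relation. -/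
def CSP {D : Type} (l : List (Rel D)) (I : List (ℕ × List ℕ)) : Prop :=
  ∃ h : ℕ → D, ∀ C ∈ I, ∃ (R : Rel D) (v : Fin R.1 → ℕ),
    l[C.1]? = some R ∧ C.2 = List.ofFn v ∧ (fun j => h (v j)) ∈ R.2

/-- The constraint satisfaction problem of the structure with the (possibly infinite) set of
relations `Γ` is tractable: for every finite list of relations in `Γ` the problem is in `P`. -/
def Tractable {D : Type} (Γ : Set (Rel D)) : Prop :=
  ∀ l : List (Rel D), (∀ R ∈ l, R ∈ Γ) → InPP (CSP l)

/-- The set `T` of operations (of arity at least one) on `S` corresponds to a tractable constraint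
satisfaction problem: for every structure on `S` with finitely many relations, all of which are
preserved by every operation in `T`, the problem is in `P`. -/
def CloneTractable {S : Type} (T : ∀ k : ℕ, Set ((Fin k → S) → S)) : Prop :=
  ∀ l : List (Rel S), (∀ R ∈ l, ∀ k, 1 ≤ k → ∀ g ∈ T k, Preserves g R) → InPP (CSP l)

/-- `P = NP`. -/
def PEqNP : Prop := ∀ A : Set (List Bool), InNP A → InP A

/-- The hypotheses on `Δ`: the `L`-structure `M` is countable, the language is finite and relational,
and `M` is homogeneous, finitely bounded, ordered and Ramsey. -/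
structure IsBase (L : FirstOrder.Language.{0, 0}) (M : Type) [L.Structure M] : Prop where
  countable : Countable M
  relational : L.IsRelational
  finite : Finite (Σ n, L.Relations n)
  homogeneous : L.IsUltrahomogeneous M
  finitelyBounded : FinitelyBounded L M
  ordered : Ordered L M
  ramsey : Ramsey L M

/-- The statement asked for: if `Δ = M` is a countable, finitely bounded, ordered, homogeneous Ramsey
structure in a finite relational language of maximal arity `r`, and `Γ` is a reduct of `Δ` with a
tractable constraint satisfaction problem, then for some `n` and some tuple `c` of length `n` the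
type clone of the canonical polymorphisms of `Γ` corresponds to a tractable constraint satisfaction
problem. -/
def TypeCloneConjecture : Prop :=
  ∀ (L : FirstOrder.Language.{0, 0}) (M : Type) [L.Structure M], IsBase L M →
    ∀ Γ : Set (Rel M), IsReduct L Γ → Tractable Γ →
    ∀ r : ℕ, IsGreatest {n : ℕ | Nonempty (L.Relations n)} r →
      ∃ (n : ℕ) (c : Fin n → M), CloneTractable (TypeClone L Γ c r)

/-- Some constant operation is a polymorphism of `Γ`. -/
def HasConstant {D : Type} (Γ : Set (Rel D)) : Prop := ∃ q : D, (fun _ => q) ∈ Pol Γ 1

/-- `T` has a minion homomorphism to the clone of projections: to every `k`-ary operation in `T` one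
can assign one of its `k` arguments, in such a way that identifying and permuting arguments and
adding dummy arguments (forming the minor `x ↦ g (x ∘ π)` of `g`) is respected. Equivalently, `T`
satisfies no non-trivial system of identities of height one. -/
def MinionHomToProjections {S : Type} (T : ∀ k : ℕ, Set ((Fin k → S) → S)) : Prop :=
  ∃ ξ : ∀ k, T k → Fin k, ∀ (k m : ℕ) (g : T k) (h : T m) (π : Fin k → Fin m),
    (∀ x : Fin m → S, h.1 x = g.1 fun i => x (π i)) → ξ m h = π (ξ k g)

end Pool.Agent.R617.TC
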