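import Pool.Agent.R617.TC.Rat

/-!
# Canonical operations on `(ℚ; ≤, c)` are dictatorships far to the right
-/

set_option autoImplicit false

namespace Pool.Agent.R617.TC

open FirstOrder FirstOrder.Language

/-! ### An abstract lemma -/

theorem ultra_aux {k : ℕ} {P : (Fin k → Bool) → Prop} (h1 : ∀ e, P e ∨ P fun i => !e i)
    (h2 : ∀ e, ¬ (P e ∧ P fun i => !e i))
    (h3 : ∀ e d z, P e → P d → (∀ i, e i = d i → z i = e i) → P z)
    (ht : P fun _ => true) : ∃ d : Fin k, ∀ e, P e ↔ e d = true := by
  classical
  by_contra hcon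
  push Not at hcon
  have h4 : ∀ d : Fin k, ∃ e, P e ∧ e d = false := by
    intro d
    obtain ⟨e, he⟩ := hcon d
    rcases he with ⟨h5, h6⟩ | ⟨h5, h6⟩
    · exact ⟨e, h5, by simpa using h6⟩
    · exact ⟨_, (h1 e).resolve_left h5, by simp [h6]⟩
  choose g hg1 hg2 using h4
  have h5 : ∀ F : Finset (Fin k), ∃ e, P e ∧ ∀ d ∈ F, e d = false := by
    intro F
    induction F using Finset.induction_on with
    | empty => exact ⟨_, ht, by simp⟩
    | insert d F _ ih =>
      obtain ⟨e, he1, he2⟩ := ih
      refine ⟨fun i => e i && g d i, h3 e (g d) _ he1 (hg1 d) fun i hi => ?_, ?_⟩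
      · show (e i && g d i) = e i
        rw [← hi, Bool.and_self]
      · intro d' hd'
        rcases Finset.mem_insert.1 hd' with rfl | hd'
        · simp [hg2]
        · simp [he2 d' hd']
  obtain ⟨e, he1, he2⟩ := h5 Finset.univ
  have h6 : e = fun _ => !true := by
    funext i
    simpa using he2 i (Finset.mem_univ i)
  rw [h6] at he1
  exact h2 _ ⟨ht, he1⟩

theorem ultra {k : ℕ} {P : (Fin k → Bool) → Prop} (h1 : ∀ e, P e ∨ P fun i => !e i)
    (h2 : ∀ e, ¬ (P e ∧ P fun i => !e i))
    (h3 : ∀ e d z, P e → P d → (∀ i, e i = d i → z i = e i) → P z) :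
    ∃ (s : Bool) (d : Fin k), ∀ e, P e ↔ e d = s := by
  rcases h1 fun _ => true with ht | ht
  · obtain ⟨d, hd⟩ := ultra_aux h1 h2 h3 ht
    exact ⟨true, d, hd⟩
  · have inv : ∀ e : Fin k → Bool, (fun i => !(!e i)) = e := fun e => by
      funext i
      simp
    obtain ⟨d, hd⟩ := ultra_aux (P := fun e => P fun i => !e i)
      (fun e => by
        have := h1 fun i => !e i
        exact this)
      (fun e => by
        have := h2 fun i => !e i
        exact this)
      (fun e d z he hd hz => h3 _ _ _ he hd fun i hi => by
        have : z i = e i := hz i (by simpa using hi)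
        show (!z i) = !e i
        rw [this]) ht
    refine ⟨false, d, fun e => ?_⟩
    have := hd fun i => !e i
    simp only [inv] at this
    rw [this]
    simp

/-! ### Canonical operations -/

/-- All entries are larger than `γ`. -/
def Up {k : ℕ} (γ : ℚ) (a : Fin k → ℚ) : Prop := ∀ i, γ < a i

/-- `a` and `b` are ordered as prescribed by the signs `e`. -/
def Sg {k : ℕ} (e : Fin k → Bool) (a b : Fin k → ℚ) : Prop :=
  ∀ i, (e i = true → a i < b i) ∧ (e i = false → b i < a i)

theorem Sg.symm {k : ℕ} {e : Fin k → Bool} {a b : Fin k → ℚ} (h : Sg e a b) :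
    Sg (fun i => !e i) b a := fun i =>
  ⟨fun h1 => (h i).2 (by simpa using h1), fun h1 => (h i).1 (by simpa using h1)⟩

section Dict

variable {n k : ℕ} {c : Fin n → ℚ} {γ : ℚ} {f : (Fin k → ℚ) → ℚ}

theorem can2 (hγ : ∀ i, c i < γ) (hf : Canonical Language.order c f) {a b a' b' : Fin k → ℚ}
    (ha : Up γ a) (hb : Up γ b) (ha' : Up γ a') (hb' : Up γ b')
    (h1 : ∀ i, a i ≤ b i ↔ a' i ≤ b' i) (h2 : ∀ i, b i ≤ a i ↔ b' i ≤ a' i) :
    (f a ≤ f b ↔ f a' ≤ f b') := by
  have key := hf 2 (fun i => ![a i, b i]) (fun i => ![a' i, b' i]) fun i => by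
    rw [sameType_rat]
    have hup : ∀ q : Fin 2, γ < (![a i, b i] : Fin 2 → ℚ) q := by
      intro q
      fin_cases q
      · exact ha i
      · exact hb i
    have hup' : ∀ q : Fin 2, γ < (![a' i, b' i] : Fin 2 → ℚ) q := by
      intro q
      fin_cases q
      · exact ha' i
      · exact hb' i
    rintro (p | p) (q | q)
    · exact Iff.rfl
    · exact iff_of_true ((hγ p).trans (hup q)).le ((hγ p).trans (hup' q)).le
    · exact iff_of_false (not_le.2 ((hγ q).trans (hup p))) (not_le.2 ((hγ q).trans (hup' p)))
    · fin_cases p <;> fin_cases q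
      · exact iff_of_true le_rfl le_rfl
      · exact h1 i
      · exact h2 i
      · exact iff_of_true le_rfl le_rfl
  rw [sameType_rat] at key
  exact key (Sum.inr 0) (Sum.inr 1)

theorem sg_iff {e : Fin k → Bool} {a b a' b' : Fin k → ℚ} (h : Sg e a b) (h' : Sg e a' b') :
    (∀ i, a i ≤ b i ↔ a' i ≤ b' i) ∧ (∀ i, b i ≤ a i ↔ b' i ≤ a' i) := by
  constructor <;> intro i
  · cases he : e i
    · exact iff_of_false (not_le.2 ((h i).2 he)) (not_le.2 ((h' i).2 he))
    · exact iff_of_true ((h i).1 he).le ((h' i).1 he).le
  · cases he : e i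
    · exact iff_of_true ((h i).2 he).le ((h' i).2 he).le
    · exact iff_of_false (not_le.2 ((h i).1 he)) (not_le.2 ((h' i).1 he))

/-- A pair above `γ` with signs `e`. -/
def lo (γ : ℚ) (e : Fin k → Bool) : Fin k → ℚ := fun i => if e i = true then γ + 1 else γ + 2
def hi (γ : ℚ) (e : Fin k → Bool) : Fin k → ℚ := fun i => if e i = true then γ + 2 else γ + 1

theorem up_lo (γ : ℚ) (e : Fin k → Bool) : Up γ (lo γ e) := fun i => by
  unfold lo; split_ifs <;> linarith
theorem up_hi (γ : ℚ) (e : Fin k → Bool) : Up γ (hi γ e) := fun i => by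
  unfold hi; split_ifs <;> linarith
theorem sg_lo_hi (γ : ℚ) (e : Fin k → Bool) : Sg e (lo γ e) (hi γ e) := fun i => by
  unfold lo hi
  constructor <;> intro h <;> simp [h]

theorem lt_iff (hγ : ∀ i, c i < γ) (hf : Canonical Language.order c f) {e : Fin k → Bool}
    {a b : Fin k → ℚ} (ha : Up γ a) (hb : Up γ b) (h : Sg e a b) :
    (f a < f b ↔ f (lo γ e) < f (hi γ e)) ∧ (f b < f a ↔ f (hi γ e) < f (lo γ e)) := by
  obtain ⟨h1, h2⟩ := sg_iff h (sg_lo_hi γ e)
  have h3 := can2 hγ hf ha hb (up_lo γ e) (up_hi γ e) h1 h2
  have h4 := can2 hγ hf hb ha (up_hi γ e) (up_lo γ e) h2 h1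
  rw [← not_le, ← not_le, ← not_le, ← not_le, h3, h4]
  exact ⟨Iff.rfl, Iff.rfl⟩

theorem dict (hγ : ∀ i, c i < γ) (hf : Canonical Language.order c f)
    (hc : ¬ ∀ a b, Up γ a → Up γ b → f a = f b) :
    ∃ (s : Bool) (d : Fin k), ∀ (e : Fin k → Bool) (a b : Fin k → ℚ), Up γ a → Up γ b →
      Sg e a b → (f a < f b ↔ e d = s) := by
  have all : ∀ {e : Fin k → Bool} {a b : Fin k → ℚ}, Up γ a → Up γ b → Sg e a b →
      (f a < f b ↔ f (lo γ e) < f (hi γ e)) := fun ha hb h => (lt_iff hγ hf ha hb h).1
  have h1 : ∀ e : Fin k → Bool, f (lo γ e) < f (hi γ e) ∨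
      f (lo γ fun i => !e i) < f (hi γ fun i => !e i) := by
    intro e
    rcases lt_trichotomy (f (lo γ e)) (f (hi γ e)) with h | h | h
    · exact Or.inl h
    · exfalso
      -- the operation is constant
      have eq : ∀ {a b : Fin k → ℚ}, Up γ a → Up γ b → Sg e a b → f a = f b := by
        intro a b ha hb hab
        have h5 := lt_iff hγ hf ha hb hab
        rw [h] at h5
        exact le_antisymm (not_lt.1 fun h6 => lt_irrefl _ (h5.2.1 h6))
          (not_lt.1 fun h6 => lt_irrefl _ (h5.1.1 h6))
      apply hc
      intro a b ha hb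
      let m : Fin k → ℚ := fun i => if e i = true then max (a i) (b i) + 1
        else (γ + min (a i) (b i)) / 2
      have hmin : ∀ i, γ < min (a i) (b i) := fun i => lt_min (ha i) (hb i)
      have hm : Up γ m := by
        intro i
        show γ < if e i = true then max (a i) (b i) + 1 else (γ + min (a i) (b i)) / 2
        split_ifs
        · have := le_max_left (a i) (b i)
          have := ha i
          linarith
        · have := hmin i
          linarith
      have hs : ∀ x : Fin k → ℚ, (∀ i, x i ≤ max (a i) (b i) ∧ min (a i) (b i) ≤ x i) →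
          Sg e x m := by
        intro x hx i
        have h7 := hx i
        have h8 := hmin i
        constructor
        · intro he
          show x i < if e i = true then max (a i) (b i) + 1 else (γ + min (a i) (b i)) / 2
          rw [if_pos he]
          linarith
        · intro he
          show (if e i = true then max (a i) (b i) + 1 else (γ + min (a i) (b i)) / 2) < x i
          rw [if_neg (by simp [he])]
          linarith
      rw [eq ha hm (hs a fun i => ⟨le_max_left _ _, min_le_left _ _⟩),
        eq hb hm (hs b fun i => ⟨le_max_right _ _, min_le_right _ _⟩)]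
    · right
      exact (all (up_hi γ e) (up_lo γ e) (sg_lo_hi γ e).symm).1 h
  have h2 : ∀ e : Fin k → Bool, ¬ (f (lo γ e) < f (hi γ e) ∧
      f (lo γ fun i => !e i) < f (hi γ fun i => !e i)) := by
    rintro e ⟨h3, h4⟩
    have h5 := (all (up_hi γ e) (up_lo γ e) (sg_lo_hi γ e).symm).2 h4
    exact lt_asymm h3 h5
  have h3 : ∀ e d z : Fin k → Bool, f (lo γ e) < f (hi γ e) → f (lo γ d) < f (hi γ d) →
      (∀ i, e i = d i → z i = e i) → f (lo γ z) < f (hi γ z) := by
    intro e d z he hd hz
    let m : Fin k → ℚ := fun _ => γ + 3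
    let a : Fin k → ℚ := fun i => bif e i then (bif d i then γ + 2 else
      bif z i then γ + 1 else γ + 2) else (bif d i then bif z i then γ + 4 else γ + 5 else γ + 4)
    let b : Fin k → ℚ := fun i => bif e i then (bif d i then γ + 4 else
      bif z i then γ + 2 else γ + 1) else (bif d i then bif z i then γ + 5 else γ + 4 else γ + 2)
    have hm : Up γ m := fun i => by show γ < γ + 3; linarith
    have ha : Up γ a := by
      intro i
      show γ < bif e i then (bif d i then γ + 2 else
        bif z i then γ + 1 else γ + 2) else (bif d i then bif z i then γ + 4 else γ + 5 else γ + 4)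
      cases e i <;> cases d i <;> cases z i <;> simp only [cond_true, cond_false] <;> linarith
    have hb : Up γ b := by
      intro i
      show γ < bif e i then (bif d i then γ + 4 else
        bif z i then γ + 2 else γ + 1) else (bif d i then bif z i then γ + 5 else γ + 4 else γ + 2)
      cases e i <;> cases d i <;> cases z i <;> simp only [cond_true, cond_false] <;> linarith
    have s1 : Sg e a m := by
      intro i
      show (_ → (bif e i then (bif d i then γ + 2 else
        bif z i then γ + 1 else γ + 2) else (bif d i then bif z i then γ + 4 else γ + 5 else γ + 4))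
          < γ + 3) ∧ (_ → γ + 3 < (bif e i then (bif d i then γ + 2 else
        bif z i then γ + 1 else γ + 2) else (bif d i then bif z i then γ + 4 else γ + 5 else γ + 4)))
      cases e i <;> cases d i <;> cases z i <;>
        simp only [cond_true, cond_false, Bool.false_eq_true, Bool.true_eq_false, false_imp_iff,
          true_and, and_true, forall_const] <;> linarith
    have s2 : Sg d m b := by
      intro i
      show (_ → γ + 3 < (bif e i then (bif d i then γ + 4 else
        bif z i then γ + 2 else γ + 1) else (bif d i then bif z i then γ + 5 else γ + 4 else γ + 2)))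
        ∧ (_ → (bif e i then (bif d i then γ + 4 else
        bif z i then γ + 2 else γ + 1) else (bif d i then bif z i then γ + 5 else γ + 4 else γ + 2))
          < γ + 3)
      cases e i <;> cases d i <;> cases z i <;>
        simp only [cond_true, cond_false, Bool.false_eq_true, Bool.true_eq_false, false_imp_iff,
          true_and, and_true, forall_const] <;> linarith
    have s3 : Sg z a b := by
      intro i
      have hzi := hz i
      show (_ → (bif e i then (bif d i then γ + 2 else
        bif z i then γ + 1 else γ + 2) else (bif d i then bif z i then γ + 4 else γ + 5 else γ + 4))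
          < (bif e i then (bif d i then γ + 4 else
        bif z i then γ + 2 else γ + 1) else (bif d i then bif z i then γ + 5 else γ + 4 else γ + 2)))
        ∧ (_ → (bif e i then (bif d i then γ + 4 else
        bif z i then γ + 2 else γ + 1) else (bif d i then bif z i then γ + 5 else γ + 4 else γ + 2))
          < (bif e i then (bif d i then γ + 2 else
        bif z i then γ + 1 else γ + 2) else (bif d i then bif z i then γ + 4 else γ + 5 else γ + 4)))
      revert hzi
      cases e i <;> cases d i <;> cases z i <;>
        simp only [cond_true, cond_false, Bool.false_eq_true, Bool.true_eq_false, false_imp_iff,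
          true_and, and_true, forall_const, imp_false, not_true_eq_false, IsEmpty.forall_iff,
          imp_self] <;> intros <;> linarith
    have t1 := (all ha hm s1).2 he
    have t2 := (all hm hb s2).2 hd
    exact (all ha hb s3).1 (t1.trans t2)
  obtain ⟨s, d, hsd⟩ := ultra h1 h2 h3
  exact ⟨s, d, fun e a b ha hb hab => (all ha hb hab).trans (hsd e)⟩

end Dict

end Pool.Agent.R617.TC
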