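import Pool.Agent.R617.TC.Hom
import Pool.Agent.Helper850.RC.P_ramsey

/-!
# The structure `(ℚ; ≤)` is homogeneous, finitely bounded, ordered and Ramsey
-/

set_option autoImplicit false

namespace Pool.Agent.R617.TC

open FirstOrder FirstOrder.Language

/-- The structure `(ℚ; ≤)`. -/
instance ratOrder : Language.order.Structure ℚ := Language.orderStructure ℚ

instance ratOrdered : Language.order.OrderedStructure ℚ := ⟨fun _ => Iff.rfl⟩

/-- The relation of a structure with one binary relation. -/
def leOf {V : Type} (A : Language.order.Structure V) (x y : V) : Prop :=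
  @Structure.RelMap Language.order V A 2 leSymb ![x, y]

theorem leOf_rat (x y : ℚ) : leOf ratOrder x y ↔ x ≤ y := Iff.rfl

theorem relMap_eq {V : Type} (A : Language.order.Structure V) (R : Language.order.Relations 2)
    (x : Fin 2 → V) : @Structure.RelMap Language.order V A 2 R x ↔ leOf A (x 0) (x 1) := by
  rw [order.relation_eq_leSymb R]
  unfold leOf
  have : x = ![x 0, x 1] := by
    funext i
    fin_cases i <;> rfl
  rw [← this]

theorem sameAtoms_rat {ι : Type} {a b : ι → ℚ} :
    SameAtoms Language.order a b ↔ ∀ i j, a i ≤ a j ↔ b i ≤ b j := by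
  constructor
  · intro h i j
    have := h.2 2 leSymb ![i, j]
    rw [relMap_eq, relMap_eq] at this
    exact this
  · intro h
    refine ⟨fun i j => ?_, ?_⟩
    · rw [le_antisymm_iff, le_antisymm_iff, h, h]
    · intro k R f
      revert f
      revert R
      revert k
      intro k R
      cases R
      intro f
      have h1 := relMap_eq ratOrder (leSymb : Language.order.Relations 2) fun i => a (f i)
      have h2 := relMap_eq ratOrder (leSymb : Language.order.Relations 2) fun i => b (f i)
      exact h1.trans ((h (f 0) (f 1)).trans h2.symm)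

theorem rat_hom : Language.order.IsUltrahomogeneous ℚ :=
  (isFraisseLimit_of_countable_nonempty_dlo ℚ).ultrahomogeneous

/-- Types in `(ℚ; ≤)` are order types. -/
theorem sameType_rat {n m : ℕ} {c : Fin n → ℚ} {a b : Fin m → ℚ} :
    SameType Language.order c a b ↔
      ∀ i j, Sum.elim c a i ≤ Sum.elim c a j ↔ Sum.elim c b i ≤ Sum.elim c b j :=
  (sameType_iff rat_hom).trans sameAtoms_rat

/-- Maps between structures with one binary relation. -/
def mkEmb {V W : Type} (A : Language.order.Structure V) (B : Language.order.Structure W)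
    (f : V → W) (hf : Function.Injective f) (h : ∀ x y, leOf A x y ↔ leOf B (f x) (f y)) :
    @Embedding Language.order V W A B :=
  @Embedding.mk Language.order V W A B ⟨f, hf⟩
    (fun {_} g _ => (g : Empty).elim)
    (fun {k} R x => by
      cases R
      have h1 := relMap_eq A (leSymb : Language.order.Relations 2) x
      have h2 := relMap_eq B (leSymb : Language.order.Relations 2) (f ∘ x)
      exact h2.trans ((h _ _).symm.trans h1.symm))

theorem leOf_emb {V W : Type} {A : Language.order.Structure V} {B : Language.order.Structure W}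
    (f : @Embedding Language.order V W A B) (x y : V) : leOf A x y ↔ leOf B (f x) (f y) := by
  have h := @Embedding.map_rel Language.order V W A B f 2 leSymb ![x, y]
  have h2 := relMap_eq B (leSymb : Language.order.Relations 2) (f ∘ ![x, y])
  exact h.symm.trans h2

theorem str_ext {V : Type} {A B : Language.order.Structure V}
    (h : ∀ x y, leOf A x y ↔ leOf B x y) : A = B := by
  refine Structure.ext ?_ ?_
  · funext n f
    exact (f : Empty).elim
  · funext n R x
    cases R
    have h1 := relMap_eq A (leSymb : Language.order.Relations 2) x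
    have h2 := relMap_eq B (leSymb : Language.order.Relations 2) x
    exact propext (h1.trans ((h _ _).trans h2.symm))

instance finite_str (n : ℕ) : Finite (Language.order.Structure (Fin n)) :=
  Finite.of_injective (fun A => (leOf A : Fin n → Fin n → Prop)) fun _ _ h =>
    str_ext fun x y => iff_of_eq (congrFun (congrFun h x) y)

/-- Restriction of a structure along a map. -/
@[reducible] def pull {V W : Type} (B : Language.order.Structure W) (f : V → W) :
    Language.order.Structure V where
  funMap := fun g => (g : Empty).elim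
  RelMap | .le => fun x => leOf B (f (x 0)) (f (x 1))

theorem leOf_pull {V W : Type} (B : Language.order.Structure W) (f : V → W) (x y : V) :
    leOf (pull B f) x y ↔ leOf B (f x) (f y) := Iff.rfl

theorem rat_finitelyBounded : FinitelyBounded Language.order ℚ := by
  classical
  refine ⟨{B | B.1 ≤ 3 ∧ ¬ Nonempty (@Embedding Language.order (Fin B.1) ℚ B.2 _)}, ?_, ?_⟩
  · refine Set.Finite.subset (Set.Finite.biUnion (Finset.finite_toSet (Finset.range 4))
      fun n _ => Set.finite_range (fun A : Language.order.Structure (Fin n) =>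
        (⟨n, A⟩ : Σ n : ℕ, Language.order.Structure (Fin n)))) ?_
    rintro ⟨n, A⟩ ⟨h, -⟩
    simp only [Set.mem_iUnion]
    exact ⟨n, by simpa using Nat.lt_succ_of_le h, A, rfl⟩
  · intro n A
    constructor
    · rintro ⟨f⟩ B ⟨-, hB⟩ ⟨g⟩
      exact hB ⟨@Embedding.comp Language.order (Fin B.1) (Fin n) B.2 A ℚ _ f g⟩
    · intro h
      -- every at most three points embed
      have small : ∀ (m : ℕ), m ≤ 3 → ∀ v : Fin m → Fin n, Function.Injective v →
          ∃ f : Fin m → ℚ, Function.Injective f ∧ ∀ i j, leOf A (v i) (v j) ↔ f i ≤ f j := by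
        intro m hm v hv
        by_contra hcon
        refine h ⟨m, pull A v⟩ ⟨hm, ?_⟩ ⟨mkEmb _ _ v hv fun x y => leOf_pull _ _ _ _⟩
        rintro ⟨f⟩
        exact hcon ⟨f, @Embedding.injective Language.order (Fin m) ℚ (pull A v) _ f,
          fun i j => (leOf_pull A v i j).symm.trans (leOf_emb f i j)⟩
      have refl : ∀ x, leOf A x x := by
        intro x
        obtain ⟨f, -, hf⟩ := small 1 (by norm_num) (fun _ => x)
          (Function.injective_of_subsingleton _)
        exact (hf 0 0).2 le_rfl
      have inj2 : ∀ {x y : Fin n}, x ≠ y → Function.Injective (![x, y] : Fin 2 → Fin n) := by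
        intro x y hxy i j hij
        fin_cases i <;> fin_cases j <;> simp_all
      have total : ∀ x y, leOf A x y ∨ leOf A y x := by
        intro x y
        by_cases hxy : x = y
        · subst hxy
          exact Or.inl (refl x)
        · obtain ⟨f, -, hf⟩ := small 2 (by norm_num) ![x, y] (inj2 hxy)
          rcases le_total (f 0) (f 1) with h1 | h1
          · exact Or.inl ((hf 0 1).2 h1)
          · exact Or.inr ((hf 1 0).2 h1)
      have anti : ∀ x y, leOf A x y → leOf A y x → x = y := by
        intro x y h1 h2
        by_contra hxy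
        obtain ⟨f, hf1, hf⟩ := small 2 (by norm_num) ![x, y] (inj2 hxy)
        have h3 := le_antisymm ((hf 0 1).1 h1) ((hf 1 0).1 h2)
        exact absurd (hf1 h3) (by decide)
      have trans : ∀ x y z, leOf A x y → leOf A y z → leOf A x z := by
        intro x y z h1 h2
        by_cases hxy : x = y
        · rw [hxy]; exact h2
        by_cases hyz : y = z
        · rw [← hyz]; exact h1
        by_cases hxz : x = z
        · rw [hxz]; exact refl z
        have inj3 : Function.Injective (![x, y, z] : Fin 3 → Fin n) := by
          intro i j hij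
          fin_cases i <;> fin_cases j <;> simp_all
        obtain ⟨f, -, hf⟩ := small 3 le_rfl ![x, y, z] inj3
        exact (hf 0 2).2 (((hf 0 1).1 h1).trans ((hf 1 2).1 h2))
      -- rank function
      let rk : Fin n → ℕ := fun x => (Finset.univ.filter fun z => leOf A z x).card
      have mono : ∀ x y, leOf A x y ↔ rk x ≤ rk y := by
        intro x y
        constructor
        · intro hxy
          refine Finset.card_le_card fun z hz => ?_
          rw [Finset.mem_filter] at hz ⊢
          exact ⟨hz.1, trans _ _ _ hz.2 hxy⟩
        · intro hle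
          by_contra hxy
          have hyx := (total x y).resolve_left hxy
          have : rk y < rk x := by
            refine Finset.card_lt_card ?_
            rw [Finset.ssubset_iff_of_subset]
            · exact ⟨x, by simp [refl], by simpa using hxy⟩
            · intro z hz
              rw [Finset.mem_filter] at hz ⊢
              exact ⟨hz.1, trans _ _ _ hz.2 hyx⟩
          omega
      refine ⟨mkEmb A ratOrder (fun x => (rk x : ℚ)) ?_ ?_⟩
      · intro x y hxy
        have : rk x = rk y := Nat.cast_injective (R := ℚ) hxy
        exact anti _ _ ((mono _ _).2 this.le) ((mono _ _).2 this.ge)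
      · intro x y
        rw [mono, leOf_rat]
        exact_mod_cast Iff.rfl

theorem rat_ordered : Ordered Language.order ℚ :=
  ⟨leSymb, inferInstance, Or.inr fun _ _ => Iff.rfl⟩

/-- Every set is the universe of a substructure. -/
def sub (s : Set ℚ) : Language.order.Substructure ℚ := ⟨s, fun f => isEmptyElim f⟩

theorem leOf_sub (A : Language.order.Substructure ℚ) (x y : A) :
    leOf (inferInstance : Language.order.Structure A) x y ↔ x.1 ≤ y.1 := Iff.rfl

/-- Isomorphisms from order isomorphisms. -/
def mkEquiv {A B : Language.order.Substructure ℚ} (e : A ≃ B)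
    (h : ∀ x y : A, x.1 ≤ y.1 ↔ (e x).1 ≤ (e y).1) : A ≃[Language.order] B where
  toEquiv := e
  map_fun' := fun g => (g : Empty).elim
  map_rel' := fun {k} R x => by
    cases R
    have h1 := relMap_eq (inferInstance : Language.order.Structure A)
      (leSymb : Language.order.Relations 2) x
    have h2 := relMap_eq (inferInstance : Language.order.Structure B)
      (leSymb : Language.order.Relations 2) (e ∘ x)
    exact h2.trans ((h _ _).symm.trans h1.symm)

theorem equiv_of_card {A B : Language.order.Substructure ℚ} [Finite A] [Finite B]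
    (h : Nat.card A = Nat.card B) : Nonempty (A ≃[Language.order] B) := by
  classical
  have := Fintype.ofFinite A
  have := Fintype.ofFinite B
  rw [Nat.card_eq_fintype_card, Nat.card_eq_fintype_card] at h
  let e1 := Fintype.orderIsoFinOfCardEq A rfl
  let e2 := Fintype.orderIsoFinOfCardEq B h.symm
  refine ⟨mkEquiv (e1.symm.trans e2).toEquiv fun x y => ?_⟩
  have h1 := (e1.symm.trans e2).le_iff_le (x := x) (y := y)
  exact h1.symm

theorem card_of_equiv {A B : Language.order.Substructure ℚ}
    (h : Nonempty (A ≃[Language.order] B)) : Nat.card A = Nat.card B := by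
  obtain ⟨e⟩ := h
  exact Nat.card_congr e.toEquiv

theorem rat_ramsey : Ramsey Language.order ℚ := by
  classical
  intro A B hA hB k hk
  obtain ⟨C, hC⟩ := RC.ramsey (Nat.card A)
  obtain ⟨a, ha⟩ := hC k
  let N := RC.tow C (a * (Nat.card B + 1))
  refine ⟨sub ((fun i : ℕ => (i : ℚ)) '' (Finset.range N : Set ℕ)),
    (Set.Finite.image _ (Finset.finite_toSet _)).to_subtype, fun χ => ?_⟩
  obtain ⟨T, hTS, hTc, hT⟩ := ha (Nat.card B) (Finset.range N) (by rw [Finset.card_range])
    (fun x => χ (sub (Set.range fun l => ((x l : ℕ) : ℚ))))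
  let B' : Language.order.Substructure ℚ := sub ((fun i : ℕ => (i : ℚ)) '' (T : Set ℕ))
  have hB'f : Finite B' := (Set.Finite.image _ (Finset.finite_toSet _)).to_subtype
  have hcast : Function.Injective (fun i : ℕ => (i : ℚ)) := Nat.cast_injective
  have hB'c : Nat.card B' = Nat.card B := by
    have h1 : Nat.card B' = ((fun i : ℕ => (i : ℚ)) '' (T : Set ℕ)).ncard := rfl
    rw [h1, Set.ncard_image_of_injective _ hcast, Set.ncard_coe_finset, hTc]
  refine ⟨B', ?_, equiv_of_card hB'c, ?_⟩
  · exact Set.image_mono (by exact_mod_cast hTS)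
  · -- copies of `A` in `B'` are ranges of increasing tuples
    have copy : ∀ A' ≤ B', Nonempty (A' ≃[Language.order] A) →
        ∃ x : Fin (Nat.card A) → ℕ, StrictMono x ∧ (∀ l, x l ∈ T) ∧
          A' = sub (Set.range fun l => ((x l : ℕ) : ℚ)) := by
      intro A' hA' hAA'
      have hA'c := card_of_equiv hAA'
      have hsub : (A' : Set ℚ) ⊆ (fun i : ℕ => (i : ℚ)) '' (T : Set ℕ) := hA'
      let U : Finset ℕ := T.filter fun i => (i : ℚ) ∈ A'
      have hU : (A' : Set ℚ) = (fun i : ℕ => (i : ℚ)) '' (U : Set ℕ) := by
        ext q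
        constructor
        · intro hq
          obtain ⟨i, hi, rfl⟩ := hsub hq
          exact ⟨i, by simp only [U, Finset.coe_filter, Set.mem_ofPred_eq]; exact ⟨hi, hq⟩, rfl⟩
        · rintro ⟨i, hi, rfl⟩
          simp only [U, Finset.coe_filter, Set.mem_ofPred_eq] at hi
          exact hi.2
      have hUc : U.card = Nat.card A := by
        rw [← hA'c]
        have h1 : Nat.card A' = (A' : Set ℚ).ncard := rfl
        rw [h1, hU, Set.ncard_image_of_injective _ hcast, Set.ncard_coe_finset]
      refine ⟨U.orderEmbOfFin hUc, (U.orderEmbOfFin hUc).strictMono, fun l => ?_, ?_⟩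
      · exact (Finset.mem_filter.1 (Finset.orderEmbOfFin_mem U hUc l)).1
      · apply SetLike.coe_injective
        show (A' : Set ℚ) = Set.range _
        rw [hU, ← Finset.range_orderEmbOfFin U hUc, ← Set.range_comp]
        rfl
    by_cases hex : ∃ A' ≤ B', Nonempty (A' ≃[Language.order] A)
    · obtain ⟨A0, hA0, hA0'⟩ := hex
      refine ⟨χ A0, fun A' hA' hAA' => ?_⟩
      obtain ⟨x, hx1, hx2, hx3⟩ := copy A0 hA0 hA0'
      obtain ⟨y, hy1, hy2, hy3⟩ := copy A' hA' hAA'
      rw [hx3, hy3]
      exact hT y x hy1 hx1 hy2 hx2
    · exact ⟨⟨0, hk⟩, fun A' hA' hAA' => absurd ⟨A', hA', hAA'⟩ hex⟩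

theorem rat_arity : IsGreatest {n : ℕ | Nonempty (Language.order.Relations n)} 2 := by
  refine ⟨⟨leSymb⟩, ?_⟩
  rintro n ⟨R⟩
  cases R
  exact le_rfl

end Pool.Agent.R617.TC
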